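import Mathlib
import Pool.Agent.X69.VdwGame

/-! Maker wins the generalized van der Waerden game within a number of moves that depends only on
the size of the pattern. -/

namespace Pool.Agent.Results.MP_3e1131_co.BoundedLength

open Pool.Agent.X69.VdwGame

/-- There is a function `C` such that for every `n ≥ 1` and every set `S` of `n` natural numbers
Maker has a `C n`-move strategy in the game `G(S)`. -/
theorem result : ∃ C : ℕ → ℕ, ∀ n : ℕ, 1 ≤ n → ∀ S : Finset ℕ, S.card = n →
    MakerWinsIn S (C n) ∅ ∅ := by
  obtain ⟨C, hC⟩ := main
  exact ⟨C, fun n _ S hS => hC n S hS⟩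

end Pool.Agent.Results.MP_3e1131_co.BoundedLength
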